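import Pool.Agent.Y530.TM.Defs
import Pool.Agent.Y530.TN.Gen
import Pool.Agent.Y647.RG.XRep
import Pool.Agent.Y647.RG.Count

/-!
# Graphs composed of rigid parts: some partition attains the rank
-/

set_option autoImplicit false

namespace Pool.Agent.Y530.TM

open Finset Pool.Agent.H283R2.DR Pool.Agent.H789R5 Pool.Agent.Y530.TN Pool.Agent.Y647.RG
  Pool.Agent.W824.BJ

theorem rk_rho (n : ℕ) : rk n = rho n := rfl

theorem rk_add (m n : ℕ) : rk (m + n) + 6 ≤ (rk m + 6) + (rk n + 6) := by
  unfold rk
  split_ifs <;> omega

theorem rk_sum {B : Type} (f : B → ℕ) (s : Finset B) (hs : s.Nonempty) :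
    rk (∑ b ∈ s, f b) + 6 ≤ ∑ b ∈ s, (rk (f b) + 6) := by
  classical
  induction hs using Finset.Nonempty.cons_induction with
  | singleton a => simp
  | cons a s h hs ih =>
    rw [Finset.sum_cons, Finset.sum_cons]
    exact (rk_add _ _).trans (by omega)

variable {V : Type} [Fintype V]

theorem cls_card [DecidableEq V] {C : Type} [DecidableEq C] (γ : V → C) (c : C) :
    {v | γ v = c}.ncard = (univ.filter fun v => γ v = c).card := by
  rw [← Set.ncard_coe_finset]
  congr 1
  ext v
  simp

/-- the upper bound by a partition -/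
theorem ub {C : Type} [Fintype C] (G : SimpleGraph V) (γ : V → C) : genRank 3 G ≤ val G γ := by
  classical
  have h := upperT (G := G) (F := (cross G γ).toFinset) (T := (univ : Finset C))
    (Y := fun c => univ.filter fun v => γ v = c)
    (by
      intro v
      refine le_trans (le_of_eq ?_) (show 1 ≤ 2 by norm_num)
      rw [Finset.card_eq_one]
      refine ⟨γ v, ?_⟩
      ext c
      simp [eq_comm])
    (by
      intro u v huv
      by_cases h : γ u = γ v
      · exact Or.inr ⟨γ u, mem_univ _, by simp, by simp [h]⟩
      · exact Or.inl (Set.mem_toFinset.2 ⟨u, v, huv, h, rfl⟩))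
  have h2 : val G γ = ∑ c, rho (univ.filter fun v => γ v = c).card +
      (cross G γ).toFinset.card := by
    unfold val
    congr 1
    · refine Finset.sum_congr rfl fun c _ => ?_
      rw [cls_card, rk_rho]
    · exact Set.ncard_eq_toFinset_card' _
  rw [h2]
  omega

/-- **Some partition attains the rank of a graph composed of rigid parts.** -/
theorem composed : S_K := by
  classical
  rintro V _ G ⟨n, B, β, χ, Q, hn, hB, hrig, hQ, hdis, hv⟩
  have := Fintype.ofFinite B
  obtain ⟨⟨r, hr⟩, -⟩ := (gen n hn V B G β χ Q hrig hQ hdis hv).1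
  refine ⟨Quotient r, inferInstance, fun v => Quotient.mk r (β v), le_antisymm (ub _ _) ?_⟩
  have e1 : cross G (fun v => Quotient.mk r (β v)) =
      {e : Sym2 V | ∃ u v, G.Adj u v ∧ ¬ r (β u) (β v) ∧ e = s(u, v)} := by
    ext e
    constructor
    · rintro ⟨u, v, h1, h2, h3⟩
      exact ⟨u, v, h1, fun h => h2 (Quotient.sound h), h3⟩
    · rintro ⟨u, v, h1, h2, h3⟩
      exact ⟨u, v, h1, fun h => h2 (Quotient.exact h), h3⟩
  have e2 : ∀ c : Quotient r, {v | Quotient.mk r (β v) = c}.ncard =
      ∑ b ∈ univ.filter (fun b => Quotient.mk r b = c), {v | β v = b}.ncard := by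
    intro c
    rw [cls_card, Finset.card_eq_sum_card_fiberwise (f := β)
      (t := univ.filter (fun b => Quotient.mk r b = c))]
    · refine Finset.sum_congr rfl fun b hb => ?_
      rw [cls_card]
      congr 1
      ext v
      simp only [Finset.mem_filter, Finset.mem_univ, true_and]
      constructor
      · exact fun h => h.2
      · intro h
        subst h
        exact ⟨(Finset.mem_filter.1 hb).2, rfl⟩
    · intro v hv
      simpa using hv
  have e3 : ∀ c : Quotient r, rk {v | Quotient.mk r (β v) = c}.ncard + 6 ≤
      ∑ b ∈ univ.filter (fun b => Quotient.mk r b = c), (rk {v | β v = b}.ncard + 6) := by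
    intro c
    rw [e2]
    apply rk_sum
    obtain ⟨b, hb⟩ := Quotient.exists_rep c
    exact ⟨b, by simp [hb]⟩
  have e4 := Finset.sum_le_sum fun c (_ : c ∈ (univ : Finset (Quotient r))) => e3 c
  rw [Finset.sum_fiberwise, Finset.sum_add_distrib, Finset.sum_add_distrib, Finset.sum_const,
    Finset.sum_const, Finset.card_univ, Finset.card_univ, smul_eq_mul, smul_eq_mul] at e4
  have e5 : Nat.card (Quotient r) ≤ Nat.card B := by
    rw [Nat.card_eq_fintype_card, Nat.card_eq_fintype_card]
    exact Fintype.card_quotient_le r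
  have e6 : val G (fun v => Quotient.mk r (β v)) =
      ∑ c : Quotient r, rk {v | Quotient.mk r (β v) = c}.ncard + between G β r := by
    unfold val between
    rw [e1]
  rw [hr, e6]
  rw [Nat.card_eq_fintype_card, Nat.card_eq_fintype_card] at e5 ⊢
  omega

/-- the upper bound by a partition for count matroids -/
theorem cr_le {C : Type} [Fintype C] {ρ : SimpleGraph V → ℕ} (hρ : CR ρ) (G : SimpleGraph V)
    (γ : V → C) : ρ G ≤ val G γ := by
  classical
  have h1 : ∀ S : Finset C, ρ (S.sup fun c => kg (univ.filter fun v => γ v = c)) ≤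
      ∑ c ∈ S, rk {v | γ v = c}.ncard := by
    intro S
    induction S using Finset.induction with
    | empty =>
      have := hρ.le (⊥ : SimpleGraph V)
      simpa using this
    | insert a s ha ih =>
      rw [Finset.sup_insert, Finset.sum_insert ha]
      have h2 := hρ.sub (kg (univ.filter fun v => γ v = a))
        (s.sup fun c => kg (univ.filter fun v => γ v = c))
      have h3 := hρ.kg_le (univ.filter fun v => γ v = a)
      rw [cls_card, rk_rho]
      omega
  have h2 : G ≤ (univ.sup fun c => kg (univ.filter fun v => γ v = c)) ⊔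
      SimpleGraph.fromEdgeSet (cross G γ) := by
    intro u v huv
    by_cases h : γ u = γ v
    · left
      have h3 : kg (univ.filter fun w => γ w = γ u) ≤
          univ.sup fun c => kg (univ.filter fun v => γ v = c) :=
        Finset.le_sup (f := fun c => kg (univ.filter fun v => γ v = c)) (mem_univ (γ u))
      apply h3
      refine ⟨huv.ne, ?_, ?_⟩
      · simp
      · simp [h]
    · right
      rw [SimpleGraph.fromEdgeSet_adj]
      exact ⟨⟨u, v, huv, h, rfl⟩, huv.ne⟩
  refine (hρ.mono h2).trans ((hρ.join _ _).trans ?_)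
  refine Nat.add_le_add (h1 univ) (Set.ncard_le_ncard ?_ (Set.toFinite _))
  rw [SimpleGraph.edgeSet_fromEdgeSet]
  exact Set.sdiff_subset

end Pool.Agent.Y530.TM
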