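import Mathlib
import Pool.Agent.Y530.TN.ResDefs

/-!
# Graphs composed of rigid parts: definitions for the applications
-/

set_option autoImplicit false

namespace Pool.Agent.Y530.TM

open Pool.Agent.H283R2.DR Pool.Agent.H789R5 Pool.Agent.Y530.TN

/-- the edges of `G` between different classes of the partition of the vertices given by `γ` -/
def cross {V C : Type} (G : SimpleGraph V) (γ : V → C) : Set (Sym2 V) :=
  {e | ∃ u v, G.Adj u v ∧ γ u ≠ γ v ∧ e = s(u, v)}

/-- the value of the partition of the vertices given by `γ`: the sum of the ranks of the complete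
graphs on the classes and of the number of edges between different classes -/
noncomputable def val {V C : Type} [Fintype C] (G : SimpleGraph V) (γ : V → C) : ℕ :=
  ∑ c, rk {v | γ v = c}.ncard + (cross G γ).ncard

/-- `G` is composed of rigid parts: the vertex set has a partition into parts which induce
generically rigid graphs, the vertices have `n ≥ 3` colours, and there is a set `Q` of disjoint
bundles of edges of `G` (a bundle consists of `n` edges between the same two parts whose ends in
each of the two parts have different colours) such that for each vertex either all edges which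
leave its part belong to bundles, or it is in no edge of a bundle and has at most two neighbours
outside its part. -/
def Composed {V : Type} (G : SimpleGraph V) : Prop :=
  ∃ (n : ℕ) (B : Type) (β : V → B) (χ : V → Fin n) (Q : Set (Set (Sym2 V))),
    3 ≤ n ∧ Finite B ∧
    (∀ b, GenRigid 3 (G.induce {v | β v = b})) ∧
    (∀ e ∈ Q, IsBundle β χ e ∧ e ⊆ G.edgeSet) ∧ Q.PairwiseDisjoint id ∧
    (∀ v, (∀ w, G.Adj v w → β w ≠ β v → ∃ e ∈ Q, s(v, w) ∈ e) ∨
      ((∀ e ∈ Q, ∀ x ∈ e, v ∉ x) ∧ {w | G.Adj v w ∧ β w ≠ β v}.ncard ≤ 2))

/-- some partition attains the rank -/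
def S_K : Prop := ∀ (V : Type) [Fintype V] (G : SimpleGraph V), Composed G →
  ∃ (C : Type) (_ : Fintype C) (γ : V → C), genRank 3 G = val G γ

/-- `G` is closed in the generic rigidity matroid of `ℝ³`: adding any missing edge raises the rank
(by one). -/
def Closed {V : Type} [Fintype V] (G : SimpleGraph V) : Prop :=
  ∀ u v, u ≠ v → ¬ G.Adj u v → genRank 3 (G ⊔ SimpleGraph.edge u v) = genRank 3 G + 1

/-- `X` is the vertex set of an inclusion-maximal clique with at least five vertices. -/
def MaxClique5 {V : Type} (G : SimpleGraph V) (X : Finset V) : Prop :=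
  5 ≤ X.card ∧ G.IsClique (X : Set V) ∧ ∀ Y : Finset V, G.IsClique (Y : Set V) → X ⊆ Y → Y = X

open Classical in
/-- the number of maximal cliques with at least five vertices which contain both ends of `e` -/
noncomputable def degX {V : Type} [Fintype V] (G : SimpleGraph V) (e : Sym2 V) : ℕ :=
  (Finset.univ.filter fun X : Finset V => MaxClique5 G X ∧ ∀ w ∈ e, w ∈ X).card

open Classical in
/-- the number `cval(G)` of Dress -/
noncomputable def cval {V : Type} [Fintype V] (G : SimpleGraph V) : ℤ :=
  (∑ X ∈ Finset.univ.filter (fun X : Finset V => MaxClique5 G X), (3 * (X.card : ℤ) - 6)) +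
    ((G.edgeFinset.filter fun e => degX G e = 0).card : ℤ) -
    ∑ e ∈ G.edgeFinset, if 2 ≤ degX G e then (degX G e : ℤ) - 1 else 0

/-- the Dress conjecture for graphs whose rank is attained by a partition of the vertices -/
def S_DRS : Prop := ∀ (V C : Type) [Fintype V] [Fintype C] (G : SimpleGraph V) (γ : V → C),
  Closed G → genRank 3 G = val G γ → (genRank 3 G : ℤ) = cval G

/-- `G` is generically 3-independent: at some placement in `ℝ³` the rows of the rigidity matrix are
linearly independent. -/
def Independent {V : Type} (G : SimpleGraph V) : Prop :=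
  ∃ p : V → Fin 3 → ℝ, LinearIndependent ℝ (rigidityMatrix G p).row

/-- The X-replacement of `G`: delete the edges `ab` and `cd`, add the new vertex `none` and join it
to `a`, `b`, `c`, `d`, `e`. -/
def xrep {V : Type} (G : SimpleGraph V) (a b c d e : V) : SimpleGraph (Option V) :=
  SimpleGraph.fromRel fun x y =>
    (∃ u w, x = some u ∧ y = some w ∧ G.Adj u w ∧ s(u, w) ≠ s(a, b) ∧ s(u, w) ≠ s(c, d)) ∨
    (x = none ∧ ∃ u, (u = a ∨ u = b ∨ u = c ∨ u = d ∨ u = e) ∧ y = some u)

/-- X-replacements -/
def S_XR : Prop := ∀ (V C : Type) [Fintype V] [Fintype C] (G : SimpleGraph V) (a b c d e : V)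
  (γ : Option V → C), [a, b, c, d, e].Nodup → G.Adj a b → G.Adj c d → Independent G →
  genRank 3 (xrep G a b c d e) = val (xrep G a b c d e) γ → Independent (xrep G a b c d e)

end Pool.Agent.Y530.TM
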